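import Pool.Agent.helper31.GPR.Spec

/-!
# Row MAIN of project GPR (MP_7a3aac_co)
-/

set_option autoImplicit false

namespace Pool.Agent.GPR

open Pool.Agent.helper25.QST

theorem MAIN (hLOC : LOC_stmt) (hSUB : SUB_stmt) (hFIN : FIN_stmt) (hNU3 : NU3_stmt) : MAIN_stmt := by
  intro V _ _ _ n L 𝓑 hn hB hL hLn
  by_contra hcon
  rw [not_lt] at hcon
  obtain ⟨J, hJ⟩ := hLOC V 𝓑 hB
  obtain ⟨V1, hA, hc, hd⟩ := hSUB V n L _ J hn hJ (by omega) hcon (hNU3 n L hLn)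
  refine hFIN V n (L + 1) _ J V1 hn (by omega) (by omega) hA ?_ hd
  rw [← Nat.sub_sub]
  exact hc

end Pool.Agent.GPR
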